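import Mathlib

/-!
# The exclusive sum number is bounded in terms of the sum index

For every finite simple graph `G` with sum index `s = σ(G)` the exclusive sum number satisfies
`ε(G) ≤ s * 3 ^ (s - 1)`. So there is no family of graphs with bounded sum index and unbounded
exclusive sum number.

Idea: let `f` be an optimal labelling with edge sums `s_1, …, s_C`. For a vertex `v` let
`P v ∈ {0, 1} ^ C` record for which `i` there is an edge at `v` with sum `s_i`. The new label of
`v` is `(f v, P v)`, encoded as an integer. If `f u + f v = s_i` then `uv` is an edge if and only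
if coordinate `i` of `P u + P v` is `2`.
-/

namespace Pool.Agent.Results.MP_091b59_co.BoundedBySumIndex

open Finset

universe u

variable {V : Type u}

/-- `S(f) = {f u + f v : uv ∈ E(G)}`. -/
def edgeSums (G : SimpleGraph V) (f : V → ℤ) : Set ℤ :=
  {s | ∃ u v, G.Adj u v ∧ s = f u + f v}

/-- The sum index `σ(G)`: the minimum of `|S(f)|` over all injective `f : V → ℤ`. -/
noncomputable def sumIndex (G : SimpleGraph V) : ℕ :=
  sInf {k | ∃ f : V → ℤ, Function.Injective f ∧ k = (edgeSums G f).ncard}

/-- `g` is an exclusive sum labelling of `G` together with `r` isolated vertices: it is injective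
with positive values, distinct vertices `x`, `y` of `G ∪ K̄_r` are adjacent iff `g x + g y` is a
label, and for every edge `uv` of `G` the number `g u + g v` is the label of one of the `r` added
isolated vertices. -/
def IsExclusiveLabelling (G : SimpleGraph V) (r : ℕ) (g : V ⊕ Fin r → ℤ) : Prop :=
  Function.Injective g ∧ (∀ x, 0 < g x) ∧
    (∀ x y, x ≠ y → ((G ⊕g (⊥ : SimpleGraph (Fin r))).Adj x y ↔ ∃ w, g x + g y = g w)) ∧
    ∀ u v, G.Adj u v → ∃ i : Fin r, g (Sum.inl u) + g (Sum.inl v) = g (Sum.inr i)

/-- The exclusive sum number `ε(G)`. -/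
noncomputable def exclusiveSumNumber (G : SimpleGraph V) : ℕ :=
  sInf {r | ∃ g : V ⊕ Fin r → ℤ, IsExclusiveLabelling G r g}

/-- Uniqueness of base 3 expansions. -/
theorem base3_unique : ∀ (n : ℕ) (a b : Fin n → ℤ), (∀ i, 0 ≤ a i ∧ a i < 3) →
    (∀ i, 0 ≤ b i ∧ b i < 3) → ∑ i, a i * 3 ^ (i : ℕ) = ∑ i, b i * 3 ^ (i : ℕ) → a = b := by
  intro n
  induction n with
  | zero => intro a b _ _ _; funext i; exact i.elim0
  | succ n ih =>
    intro a b ha hb h
    rw [Fin.sum_univ_succ, Fin.sum_univ_succ] at h
    have e1 : ∑ i : Fin n, a i.succ * 3 ^ ((i.succ : Fin (n + 1)) : ℕ)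
        = 3 * ∑ i : Fin n, a i.succ * 3 ^ (i : ℕ) := by
      rw [Finset.mul_sum]; apply Finset.sum_congr rfl; intro i _; rw [Fin.val_succ, pow_succ]; ring
    have e2 : ∑ i : Fin n, b i.succ * 3 ^ ((i.succ : Fin (n + 1)) : ℕ)
        = 3 * ∑ i : Fin n, b i.succ * 3 ^ (i : ℕ) := by
      rw [Finset.mul_sum]; apply Finset.sum_congr rfl; intro i _; rw [Fin.val_succ, pow_succ]; ring
    rw [e1, e2] at h
    simp only [Fin.val_zero, pow_zero, mul_one] at h
    have h0 : a 0 = b 0 := by
      have := ha 0; have := hb 0; omega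
    have h1 : ∑ i : Fin n, a i.succ * 3 ^ (i : ℕ) = ∑ i : Fin n, b i.succ * 3 ^ (i : ℕ) := by
      omega
    have h2 := ih (fun i => a i.succ) (fun i => b i.succ) (fun i => ha _) (fun i => hb _) h1
    funext i
    refine Fin.cases h0 (fun j => ?_) i
    exact congrFun h2 j

theorem base3_bound : ∀ (n : ℕ) (a : Fin n → ℤ), (∀ i, 0 ≤ a i ∧ a i < 3) →
    0 ≤ ∑ i, a i * 3 ^ (i : ℕ) ∧ ∑ i, a i * 3 ^ (i : ℕ) < 3 ^ n := by
  intro n
  induction n with
  | zero => intro a _; simp
  | succ n ih =>
    intro a ha
    rw [Fin.sum_univ_castSucc]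
    have h := ih (fun i => a i.castSucc) (fun i => ha _)
    have hl := ha (Fin.last n)
    simp only [Fin.val_castSucc, Fin.val_last] at h ⊢
    have hp : (0 : ℤ) < 3 ^ n := by positivity
    constructor
    · have : 0 ≤ a (Fin.last n) * 3 ^ n := mul_nonneg hl.1 hp.le
      linarith [h.1]
    · have : a (Fin.last n) * 3 ^ n ≤ 2 * 3 ^ n := by
        apply mul_le_mul_of_nonneg_right _ hp.le
        omega
      rw [pow_succ]; linarith [h.2]

/-- Main construction. -/
theorem exists_labelling [Fintype V] (G : SimpleGraph V) (f : V → ℤ) (hf : Function.Injective f) :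
    ∃ r, r ≤ (edgeSums G f).ncard * 3 ^ ((edgeSums G f).ncard - 1) ∧
      ∃ g : V ⊕ Fin r → ℤ, IsExclusiveLabelling G r g := by
  classical
  have hfin : (edgeSums G f).Finite := by
    apply Set.Finite.subset (Set.finite_range (fun p : V × V => f p.1 + f p.2))
    rintro s ⟨u, v, _, rfl⟩
    exact ⟨(u, v), rfl⟩
  obtain ⟨S, hS⟩ : ∃ S : Finset ℤ, (S : Set ℤ) = edgeSums G f := ⟨hfin.toFinset, by simp⟩
  have hcard : (edgeSums G f).ncard = #S := by rw [← hS, Set.ncard_coe_finset]
  rw [hcard]
  set C := #S with hC
  have hmemS : ∀ s, s ∈ S ↔ ∃ u v, G.Adj u v ∧ s = f u + f v := by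
    intro s
    rw [← Finset.mem_coe, hS]; rfl
  let e : Fin C ≃ S := (S.equivFin).symm
  -- incidence pattern
  let P : V → Fin C → ℤ := fun v i => if ∃ x, G.Adj v x ∧ f v + f x = (e i : ℤ) then 1 else 0
  have hP : ∀ v i, 0 ≤ P v i ∧ P v i ≤ 1 := by
    intro v i
    simp only [P]; split_ifs <;> simp
  let D : (Fin C → ℤ) → ℤ := fun a => ∑ i, a i * 3 ^ (i : ℕ)
  have hDadd : ∀ a b, D (a + b) = D a + D b := by
    intro a b
    simp only [D, Pi.add_apply, add_mul, Finset.sum_add_distrib]
  let B : ℤ := 3 ^ C
  have hB : 0 < B := by positivity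
  -- core label
  let h : V → ℤ := fun v => B * f v + D (P v)
  -- decoding of sums
  have hdec : ∀ u v u' v', h u + h v = h u' + h v' →
      f u + f v = f u' + f v' ∧ P u + P v = P u' + P v' := by
    intro u v u' v' heq
    have b1 : ∀ i, 0 ≤ (P u + P v) i ∧ (P u + P v) i < 3 := by
      intro i; have := hP u i; have := hP v i; simp only [Pi.add_apply]; omega
    have b2 : ∀ i, 0 ≤ (P u' + P v') i ∧ (P u' + P v') i < 3 := by
      intro i; have := hP u' i; have := hP v' i; simp only [Pi.add_apply]; omega
    have c1 := base3_bound C _ b1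
    have c2 := base3_bound C _ b2
    have heq' : B * (f u + f v) + D (P u + P v) = B * (f u' + f v') + D (P u' + P v') := by
      rw [hDadd, hDadd]; simp only [h] at heq; linarith
    have hq : f u + f v = f u' + f v' := by
      have k1 : (B * (f u + f v) + D (P u + P v)) / B = f u + f v := by
        rw [Int.add_comm, Int.add_mul_ediv_left _ _ hB.ne', Int.ediv_eq_zero_of_lt c1.1 c1.2, zero_add]
      have k2 : (B * (f u' + f v') + D (P u' + P v')) / B = f u' + f v' := by
        rw [Int.add_comm, Int.add_mul_ediv_left _ _ hB.ne', Int.ediv_eq_zero_of_lt c2.1 c2.2, zero_add]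
      rw [← k1, ← k2, heq']
    refine ⟨hq, ?_⟩
    rw [hq] at heq'
    exact base3_unique C _ _ b1 b2 (by simpa [D] using heq')
  have hinj : Function.Injective h := by
    intro u v huv
    have := (hdec u u v v (by rw [huv])).1
    exact hf (by omega)
  -- bound for the core labels
  obtain ⟨K, hK0, hK⟩ : ∃ K : ℤ, 0 ≤ K ∧ ∀ v, |h v| ≤ K := by
    refine ⟨∑ v, |h v|, Finset.sum_nonneg (fun v _ => abs_nonneg _), fun v => ?_⟩
    exact Finset.single_le_sum (f := fun v => |h v|) (fun v _ => abs_nonneg _) (Finset.mem_univ v)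
  have hK1 : ∀ v, -K ≤ h v ∧ h v ≤ K := fun v => abs_le.mp (hK v)
  let A : ℤ := 6 * K + 1
  let g0 : V → ℤ := fun v => A + h v
  let T : Finset ℤ := (univ.filter (fun p : V × V => G.Adj p.1 p.2)).image
    (fun p => g0 p.1 + g0 p.2)
  have hmemT : ∀ t, t ∈ T ↔ ∃ u v, G.Adj u v ∧ t = g0 u + g0 v := by
    intro t
    simp only [T, mem_image, mem_filter, mem_univ, true_and, Prod.exists]
    constructor
    · rintro ⟨u, v, h1, h2⟩; exact ⟨u, v, h1, h2.symm⟩
    · rintro ⟨u, v, h1, h2⟩; exact ⟨u, v, h1, h2.symm⟩
  have hTb : ∀ t ∈ T, 2 * (A - K) ≤ t ∧ t ≤ 2 * (A + K) := by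
    intro t ht
    obtain ⟨u, v, -, rfl⟩ := (hmemT t).1 ht
    have := hK1 u; have := hK1 v
    simp only [g0]; constructor <;> linarith
  -- the number of added vertices
  have hTcard : #T ≤ C * 3 ^ (C - 1) := by
    have hsub : T ⊆ (univ : Finset (Fin C)).biUnion (fun i =>
        (univ : Finset ({j : Fin C // j ≠ i} → Fin 3)).image (fun w =>
          2 * A + B * (e i : ℤ) + D (fun j => if hj : j ≠ i then ((w ⟨j, hj⟩ : ℕ) : ℤ) else 2))) := by
      intro t ht
      obtain ⟨u, v, huv, rfl⟩ := (hmemT t).1 ht
      have hs : f u + f v ∈ S := (hmemS _).2 ⟨u, v, huv, rfl⟩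
      let i : Fin C := e.symm ⟨f u + f v, hs⟩
      have hi : (e i : ℤ) = f u + f v := by simp [i]
      simp only [mem_biUnion, mem_univ, true_and, mem_image]
      have hb : ∀ j, 0 ≤ P u j + P v j ∧ P u j + P v j < 3 := by
        intro j; have := hP u j; have := hP v j; omega
      refine ⟨i, fun j => ⟨(P u j.1 + P v j.1).toNat, by have := hb j.1; omega⟩, ?_⟩
      have hD : (fun j => if hj : j ≠ i then
          (((⟨(P u j + P v j).toNat, by have := hb j; omega⟩ : Fin 3) : ℕ) : ℤ) else 2)
          = P u + P v := by
        funext j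
        by_cases hj : j ≠ i
        · rw [dif_pos hj]
          have := hb j
          simp only [Pi.add_apply]
          omega
        · rw [dif_neg hj]
          push Not at hj
          subst hj
          have p1 : P u i = 1 := by
            simp only [P]; rw [if_pos]; exact ⟨v, huv, hi.symm⟩
          have p2 : P v i = 1 := by
            simp only [P]; rw [if_pos]; exact ⟨u, huv.symm, by rw [hi]; ring⟩
          simp only [Pi.add_apply, p1, p2]; norm_num
      rw [hD, hDadd, hi]
      simp only [g0, h]; ring
    calc #T ≤ _ := Finset.card_le_card hsub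
      _ ≤ ∑ i : Fin C, #((univ : Finset ({j : Fin C // j ≠ i} → Fin 3)).image (fun w =>
          2 * A + B * (e i : ℤ) + D (fun j => if hj : j ≠ i then ((w ⟨j, hj⟩ : ℕ) : ℤ) else 2))) :=
          Finset.card_biUnion_le
      _ ≤ ∑ _i : Fin C, 3 ^ (C - 1) := by
          apply Finset.sum_le_sum
          intro i _
          refine Finset.card_image_le.trans ?_
          simp [Fintype.card_subtype_compl]
      _ = C * 3 ^ (C - 1) := by simp
  -- the labelling
  refine ⟨#T, hTcard, Sum.elim g0 (fun i => (T.equivFin.symm i : ℤ)), ?_, ?_, ?_, ?_⟩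
  · rintro (x | x) (y | y) hxy
    · simp only [Sum.elim_inl, g0] at hxy
      rw [hinj (by linarith : h x = h y)]
    · exfalso
      simp only [Sum.elim_inl, Sum.elim_inr, g0] at hxy
      have := hTb _ (T.equivFin.symm y).2
      have := hK1 x
      simp only [A] at *; linarith
    · exfalso
      simp only [Sum.elim_inl, Sum.elim_inr, g0] at hxy
      have := hTb _ (T.equivFin.symm x).2
      have := hK1 y
      simp only [A] at *; linarith
    · simp only [Sum.elim_inr] at hxy
      have := T.equivFin.symm.injective (Subtype.ext hxy)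
      rw [this]
  · rintro (x | x)
    · have := hK1 x
      simp only [Sum.elim_inl, g0, A]; linarith
    · have := hTb _ (T.equivFin.symm x).2
      simp only [Sum.elim_inr]; simp only [A] at this; linarith
  · rintro (x | x) (y | y) hxy
    · simp only [SimpleGraph.sum_adj_inl, Sum.elim_inl]
      constructor
      · intro hadj
        have ht : g0 x + g0 y ∈ T := (hmemT _).2 ⟨x, y, hadj, rfl⟩
        refine ⟨Sum.inr (T.equivFin ⟨_, ht⟩), ?_⟩
        simp
      · rintro ⟨w | w, hw⟩
        · exfalso
          simp only [Sum.elim_inl, g0] at hw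
          have := hK1 x; have := hK1 y; have := hK1 w
          simp only [A] at hw; linarith
        · simp only [Sum.elim_inr] at hw
          obtain ⟨u', v', huv', h'⟩ := (hmemT _).1 (T.equivFin.symm w).2
          rw [h'] at hw
          have hh : h x + h y = h u' + h v' := by simp only [g0] at hw; linarith
          obtain ⟨d1, d2⟩ := hdec _ _ _ _ hh
          have hs : f u' + f v' ∈ S := (hmemS _).2 ⟨u', v', huv', rfl⟩
          let i : Fin C := e.symm ⟨f u' + f v', hs⟩
          have hi : (e i : ℤ) = f u' + f v' := by simp [i]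
          have p1 : P u' i = 1 := by
            simp only [P]; rw [if_pos]; exact ⟨v', huv', hi.symm⟩
          have p2 : P v' i = 1 := by
            simp only [P]; rw [if_pos]; exact ⟨u', huv'.symm, by rw [hi]; ring⟩
          have p3 : P x i = 1 := by
            have := congrFun d2 i
            simp only [Pi.add_apply, p1, p2] at this
            have := hP x i; have := hP y i; omega
          have p4 : ∃ z, G.Adj x z ∧ f x + f z = (e i : ℤ) := by
            by_contra hcon
            simp only [P] at p3
            rw [if_neg hcon] at p3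
            exact absurd p3 (by norm_num)
          obtain ⟨z, hz1, hz2⟩ := p4
          have : z = y := hf (by rw [hi] at hz2; linarith)
          subst this
          exact hz1
    · simp only [Sum.elim_inl, Sum.elim_inr]
      constructor
      · intro hfalse; exact absurd hfalse (by simp)
      · rintro ⟨w | w, hw⟩
        · exfalso
          simp only [Sum.elim_inl, g0] at hw
          have := hTb _ (T.equivFin.symm y).2
          have := hK1 x; have := hK1 w
          simp only [A] at *; linarith
        · exfalso
          simp only [Sum.elim_inr, g0] at hw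
          have := hTb _ (T.equivFin.symm y).2
          have := hTb _ (T.equivFin.symm w).2
          have := hK1 x
          simp only [A] at *; linarith
    · simp only [Sum.elim_inl, Sum.elim_inr]
      constructor
      · intro hfalse; exact absurd hfalse (by simp)
      · rintro ⟨w | w, hw⟩
        · exfalso
          simp only [Sum.elim_inl, g0] at hw
          have := hTb _ (T.equivFin.symm x).2
          have := hK1 y; have := hK1 w
          simp only [A] at *; linarith
        · exfalso
          simp only [Sum.elim_inr, g0] at hw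
          have := hTb _ (T.equivFin.symm x).2
          have := hTb _ (T.equivFin.symm w).2
          have := hK1 y
          simp only [A] at *; linarith
    · simp only [Sum.elim_inr]
      constructor
      · intro hfalse; exact absurd hfalse (by simp)
      · rintro ⟨w | w, hw⟩
        · exfalso
          simp only [Sum.elim_inl, g0] at hw
          have := hTb _ (T.equivFin.symm x).2
          have := hTb _ (T.equivFin.symm y).2
          have := hK1 w
          simp only [A] at *; linarith
        · exfalso
          simp only [Sum.elim_inr] at hw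
          have := hTb _ (T.equivFin.symm x).2
          have := hTb _ (T.equivFin.symm y).2
          have := hTb _ (T.equivFin.symm w).2
          simp only [A] at *; linarith
  · intro u v huv
    have ht : g0 u + g0 v ∈ T := (hmemT _).2 ⟨u, v, huv, rfl⟩
    exact ⟨T.equivFin ⟨_, ht⟩, by simp⟩

theorem exclusive_le [Fintype V] (G : SimpleGraph V) :
    exclusiveSumNumber G ≤ sumIndex G * 3 ^ (sumIndex G - 1) := by
  have hne : {k | ∃ f : V → ℤ, Function.Injective f ∧ k = (edgeSums G f).ncard}.Nonempty := by
    let e := Fintype.equivFin V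
    refine ⟨_, fun v => ((e v : ℕ) : ℤ), ?_, rfl⟩
    intro u v h
    exact e.injective (Fin.ext (by simpa using h))
  obtain ⟨f, hf, hk⟩ := Nat.sInf_mem hne
  obtain ⟨r, hr, hg⟩ := exists_labelling G f hf
  unfold sumIndex
  rw [hk]
  exact (Nat.sInf_le hg).trans hr

/-- **MP_091b59, Q1 has a negative answer.** For every finite graph `G` the exclusive sum number is
attained and is at most `σ(G) * 3 ^ (σ(G) - 1)`. Hence there is no constant `C` such that for every
`N` some finite graph `G` has `σ(G) ≤ C` and `ε(G) ≥ N`. -/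
theorem result :
    (∀ (V : Type u) [Fintype V] (G : SimpleGraph V),
      (∃ g : V ⊕ Fin (exclusiveSumNumber G) → ℤ,
        IsExclusiveLabelling G (exclusiveSumNumber G) g) ∧
      exclusiveSumNumber G ≤ sumIndex G * 3 ^ (sumIndex G - 1)) ∧
    ¬ ∃ C : ℕ, ∀ N : ℕ, ∃ (V : Type u) (_ : Fintype V) (G : SimpleGraph V),
      sumIndex G ≤ C ∧ N ≤ exclusiveSumNumber G := by
  refine ⟨fun V _ G => ⟨?_, exclusive_le G⟩, ?_⟩
  · have hne : {r | ∃ g : V ⊕ Fin r → ℤ, IsExclusiveLabelling G r g}.Nonempty := by
      let e := Fintype.equivFin V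
      obtain ⟨r, -, hr⟩ := exists_labelling G (fun v => ((e v : ℕ) : ℤ)) (by
        intro u v h
        exact e.injective (Fin.ext (by simpa using h)))
      exact ⟨r, hr⟩
    exact Nat.sInf_mem hne
  · rintro ⟨C, hC⟩
    obtain ⟨V, _, G, h1, h2⟩ := hC (C * 3 ^ (C - 1) + 1)
    have h3 := exclusive_le G
    have h4 : sumIndex G * 3 ^ (sumIndex G - 1) ≤ C * 3 ^ (C - 1) :=
      Nat.mul_le_mul h1 (Nat.pow_le_pow_right (by norm_num) (by omega))
    omega

end Pool.Agent.Results.MP_091b59_co.BoundedBySumIndex
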